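import Pool.Agent.Helper47.RF.CoreGoals

/-!
MP_c98eff_gt, packet RF-C6: determinant and inverse of a metric, smoothness of the curvature quantities.
-/

namespace Pool.Agent.Helper47.RF

open Finset

namespace C6aux

theorem sm_sum3 (hC1 : Goal_C1) (f : Fin 3 → HH → ℝ) (h : ∀ a, Sm (f a)) :
    Sm (fun x => ∑ a, f a x) := by
  obtain ⟨-, -, -, -, -, h6, -, -, -⟩ := hC1
  exact h6 (Fin 3) Finset.univ f (fun a _ => h a)

/-- the determinant of a smooth field of matrices is smooth -/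
theorem sm_det (hC1 : Goal_C1) (M : MF) (hM : ∀ i j, Sm (fun x => M x i j)) :
    Sm (fun x => (M x).det) := by
  obtain ⟨_, hadd, hsub, hmul, -, -, -, -, -⟩ := hC1
  have e : (fun x => (M x).det) = fun x =>
      M x 0 0 * M x 1 1 * M x 2 2 - M x 0 0 * M x 1 2 * M x 2 1
      - M x 0 1 * M x 1 0 * M x 2 2 + M x 0 1 * M x 1 2 * M x 2 0
      + M x 0 2 * M x 1 0 * M x 2 1 - M x 0 2 * M x 1 1 * M x 2 0 := by
    funext x
    rw [Matrix.det_fin_three]
  rw [e]
  have t : ∀ a b c d p q : Fin 3, Sm (fun x => M x a b * M x c d * M x p q) := fun a b c d p q =>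
    hmul _ _ (hmul _ _ (hM a b) (hM c d)) (hM p q)
  exact hsub _ _ (hadd _ _ (hadd _ _ (hsub _ _ (hsub _ _ (t _ _ _ _ _ _) (t _ _ _ _ _ _))
    (t _ _ _ _ _ _)) (t _ _ _ _ _ _)) (t _ _ _ _ _ _)) (t _ _ _ _ _ _)

/-- the adjugate of a smooth field of matrices is smooth -/
theorem sm_adj (hC1 : Goal_C1) (M : MF) (hM : ∀ i j, Sm (fun x => M x i j)) (i j : Fin 3) :
    Sm (fun x => (M x).adjugate i j) := by
  have e : (fun x => (M x).adjugate i j)
      = fun x => ((M x).updateRow j (Pi.single i 1)).det := by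
    funext x
    rw [Matrix.adjugate_apply]
  rw [e]
  apply sm_det hC1 (fun x => (M x).updateRow j (Pi.single i 1))
  intro p q
  by_cases hp : p = j
  · subst hp
    have e2 : (fun x => (M x).updateRow p (Pi.single i 1) p q)
        = fun _ => (Pi.single i (1 : ℝ) : Fin 3 → ℝ) q := by
      funext x
      rw [Matrix.updateRow_self]
    rw [e2]
    exact hC1.1 _
  · have e2 : (fun x => (M x).updateRow j (Pi.single i 1) p q) = fun x => M x p q := by
      funext x
      rw [Matrix.updateRow_ne hp]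
    rw [e2]
    exact hM p q

theorem sm_inv (hC1 : Goal_C1) (f : HH → ℝ) (hf : Sm f) (hpos : ∀ x, x ≠ 0 → 0 < f x) :
    Sm (fun x => (f x)⁻¹) := by
  obtain ⟨-, -, -, -, -, -, hcomp, -, -⟩ := hC1
  refine hcomp f (fun y => y⁻¹) (Set.Ioi 0) isOpen_Ioi ?_ hf (fun x hx => hpos x hx)
  intro y hy
  exact (contDiffAt_inv ℝ (ne_of_gt hy)).contDiffWithinAt

theorem sm_sqrt (hC1 : Goal_C1) (f : HH → ℝ) (hf : Sm f) (hpos : ∀ x, x ≠ 0 → 0 < f x) :
    Sm (fun x => Real.sqrt (f x)) := by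
  obtain ⟨-, -, -, -, -, -, hcomp, -, -⟩ := hC1
  refine hcomp f Real.sqrt (Set.Ioi 0) isOpen_Ioi ?_ hf (fun x hx => hpos x hx)
  intro y hy
  exact (Real.contDiffAt_sqrt (ne_of_gt hy)).contDiffWithinAt

/-- the entries of the inverse of a smooth field of matrices with positive determinant are smooth -/
theorem sm_matInv (hC1 : Goal_C1) (M : MF) (hM : ∀ i j, Sm (fun x => M x i j))
    (hpos : ∀ x, x ≠ 0 → 0 < (M x).det) (i j : Fin 3) : Sm (fun x => (M x)⁻¹ i j) := by
  have e : (fun x => (M x)⁻¹ i j) = fun x => ((M x).det)⁻¹ * (M x).adjugate i j := by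
    funext x
    rw [Matrix.inv_def, Matrix.smul_apply, Ring.inverse_eq_inv', smul_eq_mul]
  rw [e]
  obtain ⟨_, _, _, hmul, -, -, -, -, -⟩ := id hC1
  exact hmul _ _ (sm_inv hC1 _ (sm_det hC1 M hM) hpos) (sm_adj hC1 M hM i j)

theorem sm_cmul (hC1 : Goal_C1) (c : ℝ) (f : HH → ℝ) (hf : Sm f) : Sm (fun x => c * f x) :=
  hC1.2.2.2.1 _ _ (hC1.1 c) hf

end C6aux

open C6aux in
theorem goal_C6 (hC1 : Goal_C1) (_hC2 : Goal_C2) : Goal_C6 := by
  intro g hg
  have hconst := hC1.1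
  have hadd := hC1.2.1
  have hsub := hC1.2.2.1
  have hmul := hC1.2.2.2.1
  have hE := hC1.2.2.2.2.2.2.2.1
  have hdet : ∀ x, 0 < (g x).det := fun x => (hg.pos x).det_pos
  have hinv : ∀ i j, Sm (fun x => (g x)⁻¹ i j) :=
    sm_matInv hC1 g hg.sm (fun x _ => hdet x)
  have hGamL : ∀ i j k, Sm (GamL g i j k) := by
    intro i j k
    have e : GamL g i j k = fun x => (1 / 2 : ℝ) * (E i (fun y => g y j k) x
        + E j (fun y => g y i k) x - E k (fun y => g y i j) x
        + 2 * ∑ l, (eps i j l * g x l k - eps i k l * g x l j - eps j k l * g x l i)) := by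
      funext x
      unfold GamL
      ring
    rw [e]
    apply sm_cmul hC1
    refine hadd _ _ (hsub _ _ (hadd _ _ (hE _ _ (hg.sm j k)) (hE _ _ (hg.sm i k)))
      (hE _ _ (hg.sm i j))) ?_
    apply sm_cmul hC1
    apply sm_sum3 hC1
    intro l
    exact hsub _ _ (hsub _ _ (sm_cmul hC1 _ _ (hg.sm l k)) (sm_cmul hC1 _ _ (hg.sm l j)))
      (sm_cmul hC1 _ _ (hg.sm l i))
  have hGam : ∀ i j k, Sm (Gam g i j k) := by
    intro i j k
    show Sm (fun x => ∑ m, (g x)⁻¹ k m * GamL g i j m x)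
    apply sm_sum3 hC1
    intro m
    exact hmul _ _ (hinv k m) (hGamL i j m)
  have hRup : ∀ i j k l, Sm (Rup g i j k l) := by
    intro i j k l
    show Sm (fun x => E i (Gam g j k l) x - E j (Gam g i k l) x
      + ∑ m, (Gam g j k m x * Gam g i m l x - Gam g i k m x * Gam g j m l x)
      - 2 * ∑ m, eps i j m * Gam g m k l x)
    refine hsub _ _ (hadd _ _ (hsub _ _ (hE _ _ (hGam j k l)) (hE _ _ (hGam i k l))) ?_) ?_
    · apply sm_sum3 hC1
      intro m
      exact hsub _ _ (hmul _ _ (hGam j k m) (hGam i m l)) (hmul _ _ (hGam i k m) (hGam j m l))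
    · apply sm_cmul hC1
      apply sm_sum3 hC1
      intro m
      exact sm_cmul hC1 _ _ (hGam m k l)
  have hRm : ∀ i j k l, Sm (Rm g i j k l) := by
    intro i j k l
    show Sm (fun x => ∑ m, Rup g i j k m x * g x m l)
    apply sm_sum3 hC1
    intro m
    exact hmul _ _ (hRup i j k m) (hg.sm m l)
  have hRic : ∀ i j, Sm (Ric g i j) := by
    intro i j
    show Sm (fun x => ∑ a, Rup g a i j a x)
    apply sm_sum3 hC1
    intro a
    exact hRup a i j a
  have hScal : Sm (Scal g) := by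
    show Sm (fun x => ∑ j, ∑ k, (g x)⁻¹ j k * Ric g j k x)
    apply sm_sum3 hC1 (fun j x => ∑ k, (g x)⁻¹ j k * Ric g j k x)
    intro j
    apply sm_sum3 hC1 (fun k x => (g x)⁻¹ j k * Ric g j k x)
    intro k
    exact hmul _ _ (hinv j k) (hRic j k)
  refine ⟨hdet, sm_det hC1 g hg.sm, sm_sqrt hC1 _ (sm_det hC1 g hg.sm) (fun x _ => hdet x), hinv,
    ?_, ?_, hGamL, hGam, hRup, hRm, hRic, hScal⟩
  · intro x
    exact Matrix.mul_nonsing_inv _ (isUnit_iff_ne_zero.mpr (hdet x).ne')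
  · intro x i j
    have h := (hg.pos x).isHermitian.inv
    have h2 := congrFun (congrFun h j) i
    rw [Matrix.conjTranspose_apply] at h2
    exact h2

end Pool.Agent.Helper47.RF
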