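import Pool.Agent.Helper64.RF.GoalsF

/-!
MP_c98eff_gt, packet F-NE1: a map with Jacobian bounded below does not shrink a box to a tiny set.
-/

open Set MeasureTheory

namespace Pool.Agent.Helper49.RF

open Pool.Agent.Helper64.RF

/-- unit vectors -/
noncomputable def ev (j : Fin 3) : W := Pi.single j 1

/-- partial derivative -/
noncomputable def dd (j : Fin 3) (f : W → ℝ) (ξ : W) : ℝ := fderiv ℝ f ξ (ev j)

theorem dd_smooth (j : Fin 3) (f : W → ℝ) (hf : ContDiff ℝ (⊤ : ℕ∞) f) :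
    ContDiff ℝ (⊤ : ℕ∞) (dd j f) :=
  (hf.fderiv_right (m := ((⊤ : ℕ∞) : WithTop ℕ∞)) (by simp)).clm_apply contDiff_const

theorem diffAt (f : W → ℝ) (hf : ContDiff ℝ (⊤ : ℕ∞) f) (ξ : W) : DifferentiableAt ℝ f ξ :=
  hf.differentiable (by simp) ξ

theorem dd_mul (j : Fin 3) (f h : W → ℝ) (hf : ContDiff ℝ (⊤ : ℕ∞) f)
    (hh : ContDiff ℝ (⊤ : ℕ∞) h) (ξ : W) :
    dd j (fun y => f y * h y) ξ = dd j f ξ * h ξ + f ξ * dd j h ξ := by
  unfold dd
  rw [fderiv_fun_mul (diffAt f hf ξ) (diffAt h hh ξ)]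
  simp only [_root_.add_apply, _root_.smul_apply, smul_eq_mul]
  ring

theorem dd_sub (j : Fin 3) (f h : W → ℝ) (hf : ContDiff ℝ (⊤ : ℕ∞) f)
    (hh : ContDiff ℝ (⊤ : ℕ∞) h) (ξ : W) :
    dd j (fun y => f y - h y) ξ = dd j f ξ - dd j h ξ := by
  unfold dd
  rw [fderiv_fun_sub (diffAt f hf ξ) (diffAt h hh ξ)]
  rfl

theorem dd_dd (j k : Fin 3) (f : W → ℝ) (hf : ContDiff ℝ (⊤ : ℕ∞) f) (ξ : W) :
    dd j (dd k f) ξ = dd k (dd j f) ξ := by
  have h0 : ∀ a b : Fin 3, dd a (dd b f) ξ = fderiv ℝ (fderiv ℝ f) ξ (ev a) (ev b) := by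
    intro a b
    have h1 : ContDiff ℝ (⊤ : ℕ∞) (fderiv ℝ f) :=
      hf.fderiv_right (m := ((⊤ : ℕ∞) : WithTop ℕ∞)) (by simp)
    have h2 : HasFDerivAt (fderiv ℝ f) (fderiv ℝ (fderiv ℝ f) ξ) ξ :=
      (h1.differentiable (by simp) ξ).hasFDerivAt
    have h3 := h2.clm_apply (hasFDerivAt_const (ev b) ξ)
    show fderiv ℝ (fun u => fderiv ℝ f u (ev b)) ξ (ev a) = _
    rw [h3.fderiv]
    simp
  have h1 : IsSymmSndFDerivAt ℝ f ξ := by
    apply ContDiffAt.isSymmSndFDerivAt (n := ((⊤ : ℕ∞) : WithTop ℕ∞))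
    · exact hf.contDiffAt
    · simp only [minSmoothness_of_isRCLikeNormedField]
      exact WithTop.coe_le_coe.mpr le_top
  rw [h0, h0]
  exact h1 (ev j) (ev k)

/-- the cofactor -/
noncomputable def cof (p q : W → ℝ) (j k : Fin 3) (ξ : W) : ℝ :=
  dd j p ξ * dd k q ξ - dd k p ξ * dd j q ξ

theorem cof_smooth (p q : W → ℝ) (j k : Fin 3) (hp : ContDiff ℝ (⊤ : ℕ∞) p)
    (hq : ContDiff ℝ (⊤ : ℕ∞) q) : ContDiff ℝ (⊤ : ℕ∞) (cof p q j k) :=
  ((dd_smooth j p hp).mul (dd_smooth k q hq)).sub ((dd_smooth k p hp).mul (dd_smooth j q hq))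

theorem dd_cof (p q : W → ℝ) (i j k : Fin 3) (hp : ContDiff ℝ (⊤ : ℕ∞) p)
    (hq : ContDiff ℝ (⊤ : ℕ∞) q) (ξ : W) : dd i (cof p q j k) ξ =
      dd i (dd j p) ξ * dd k q ξ + dd j p ξ * dd i (dd k q) ξ
        - (dd i (dd k p) ξ * dd j q ξ + dd k p ξ * dd i (dd j q) ξ) := by
  have e : cof p q j k = fun y => (fun y => dd j p y * dd k q y) y
      - (fun y => dd k p y * dd j q y) y := rfl
  rw [e, dd_sub i _ _ ((dd_smooth j p hp).mul (dd_smooth k q hq))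
    ((dd_smooth k p hp).mul (dd_smooth j q hq)),
    dd_mul i _ _ (dd_smooth j p hp) (dd_smooth k q hq),
    dd_mul i _ _ (dd_smooth k p hp) (dd_smooth j q hq)]

/-- the vector field -/
noncomputable def VV (o p q : W → ℝ) (i : Fin 3) (ξ : W) : ℝ :=
  o ξ * cof p q (i + 1) (i + 2) ξ

theorem VV_smooth (o p q : W → ℝ) (i : Fin 3) (ho : ContDiff ℝ (⊤ : ℕ∞) o)
    (hp : ContDiff ℝ (⊤ : ℕ∞) p) (hq : ContDiff ℝ (⊤ : ℕ∞) q) :
    ContDiff ℝ (⊤ : ℕ∞) (VV o p q i) := ho.mul (cof_smooth p q _ _ hp hq)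

theorem div_VV (o p q : W → ℝ) (ho : ContDiff ℝ (⊤ : ℕ∞) o) (hp : ContDiff ℝ (⊤ : ℕ∞) p)
    (hq : ContDiff ℝ (⊤ : ℕ∞) q) (ξ : W) :
    ∑ i, dd i (VV o p q i) ξ = dd 0 o ξ * (dd 1 p ξ * dd 2 q ξ - dd 2 p ξ * dd 1 q ξ)
      + dd 1 o ξ * (dd 2 p ξ * dd 0 q ξ - dd 0 p ξ * dd 2 q ξ)
      + dd 2 o ξ * (dd 0 p ξ * dd 1 q ξ - dd 1 p ξ * dd 0 q ξ) := by
  have h : ∀ i, dd i (VV o p q i) ξ = dd i o ξ * cof p q (i + 1) (i + 2) ξ
      + o ξ * dd i (cof p q (i + 1) (i + 2)) ξ := fun i =>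
    dd_mul i o _ ho (cof_smooth p q _ _ hp hq) ξ
  rw [Fin.sum_univ_three, h 0, h 1, h 2]
  rw [dd_cof p q _ _ _ hp hq, dd_cof p q _ _ _ hp hq, dd_cof p q _ _ _ hp hq]
  have a1 : (0 : Fin 3) + 1 = 1 := rfl
  have a2 : (0 : Fin 3) + 2 = 2 := rfl
  have a3 : (1 : Fin 3) + 1 = 2 := rfl
  have a4 : (1 : Fin 3) + 2 = 0 := rfl
  have a5 : (2 : Fin 3) + 1 = 0 := rfl
  have a6 : (2 : Fin 3) + 2 = 1 := rfl
  rw [a1, a2, a3, a4, a5, a6]
  unfold cof
  rw [dd_dd 1 0 p hp, dd_dd 2 0 p hp, dd_dd 2 1 p hp, dd_dd 1 0 q hq, dd_dd 2 0 q hq,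
    dd_dd 2 1 q hq]
  ring

theorem det_eq (φ : W → W) (hφ : ContDiff ℝ (⊤ : ℕ∞) φ) (ξ : W) :
    (fderiv ℝ φ ξ).det = ∑ i, dd i (VV (fun y => φ y 0) (fun y => φ y 1) (fun y => φ y 2) i) ξ := by
  have hc : ∀ i, ContDiff ℝ (⊤ : ℕ∞) (fun y => φ y i) := fun i => (contDiff_pi.mp hφ) i
  have hd : ∀ i j, fderiv ℝ φ ξ (ev j) i = dd j (fun y => φ y i) ξ := by
    intro i j
    have h1 : HasFDerivAt φ (fderiv ℝ φ ξ) ξ := (hφ.differentiable (by simp) ξ).hasFDerivAt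
    have h2 := (hasFDerivAt_pi'.mp h1) i
    unfold dd
    rw [h2.fderiv]
    rfl
  rw [div_VV _ _ _ (hc 0) (hc 1) (hc 2)]
  have h1 : (fderiv ℝ φ ξ).det
      = (LinearMap.toMatrix' (fderiv ℝ φ ξ : W →ₗ[ℝ] W)).det := by
    rw [LinearMap.det_toMatrix']
  rw [h1, Matrix.det_fin_three]
  have h2 : ∀ i j, LinearMap.toMatrix' (fderiv ℝ φ ξ : W →ₗ[ℝ] W) i j
      = dd j (fun y => φ y i) ξ := by
    intro i j
    rw [← hd i j]
    rw [LinearMap.toMatrix'_apply]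
    congr 2
  simp only [h2]
  ring

/-- the box -/
abbrev Bx : Set W := Icc (fun _ => -(1/2) : W) (fun _ => 1/2)

theorem ne1 : NE1 := by
  intro L c hL hc
  refine ⟨c / (13 * L ^ 2), by positivity, ?_⟩
  intro φ hφ hB
  by_contra hcon
  push Not at hcon
  set δ := c / (13 * L ^ 2) with hδ
  have hδ0 : 0 < δ := by positivity
  have hcd : ∀ i, ContDiff ℝ (⊤ : ℕ∞) (fun y => φ y i) := fun i => (contDiff_pi.mp hφ) i
  set V := VV (fun y => φ y 0) (fun y => φ y 1) (fun y => φ y 2) with hV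
  have hVs : ∀ i, ContDiff ℝ (⊤ : ℕ∞) (V i) := fun i => VV_smooth _ _ _ i (hcd 0) (hcd 1) (hcd 2)
  have hddb : ∀ ξ ∈ Bx, ∀ i j, |dd j (fun y => φ y i) ξ| ≤ L := by
    intro ξ hξ i j
    have h1 : HasFDerivAt φ (fderiv ℝ φ ξ) ξ := (hφ.differentiable (by simp) ξ).hasFDerivAt
    have h2 := (hasFDerivAt_pi'.mp h1) i
    have e : dd j (fun y => φ y i) ξ = fderiv ℝ φ ξ (ev j) i := by
      unfold dd
      rw [h2.fderiv]
      rfl
    rw [e, ← Real.norm_eq_abs]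
    calc ‖fderiv ℝ φ ξ (ev j) i‖ ≤ ‖fderiv ℝ φ ξ (ev j)‖ := norm_le_pi_norm _ i
      _ ≤ ‖fderiv ℝ φ ξ‖ * ‖ev j‖ := (fderiv ℝ φ ξ).le_opNorm _
      _ ≤ L * 1 := by
        apply mul_le_mul (hB ξ hξ).1 _ (norm_nonneg _) hL.le
        unfold ev
        rw [Pi.norm_single, norm_one]
      _ = L := mul_one L
  have hVb : ∀ ξ ∈ Bx, ∀ i, |V i ξ| ≤ 2 * δ * L ^ 2 := by
    intro ξ hξ i
    have h0 : |φ ξ 0| ≤ δ := by
      rw [← Real.norm_eq_abs]
      exact (norm_le_pi_norm _ 0).trans (hcon ξ hξ)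
    have hm : ∀ a b p q : Fin 3, |dd a (fun y => φ y p) ξ * dd b (fun y => φ y q) ξ| ≤ L * L := by
      intro a b p q
      rw [abs_mul]
      exact mul_le_mul (hddb ξ hξ p a) (hddb ξ hξ q b) (abs_nonneg _) hL.le
    show |φ ξ 0 * (dd (i + 1) (fun y => φ y 1) ξ * dd (i + 2) (fun y => φ y 2) ξ
      - dd (i + 2) (fun y => φ y 1) ξ * dd (i + 1) (fun y => φ y 2) ξ)| ≤ 2 * δ * L ^ 2
    rw [abs_mul]
    have h2 := (abs_sub (dd (i + 1) (fun y => φ y 1) ξ * dd (i + 2) (fun y => φ y 2) ξ)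
      (dd (i + 2) (fun y => φ y 1) ξ * dd (i + 1) (fun y => φ y 2) ξ)).trans
      (add_le_add (hm _ _ _ _) (hm _ _ _ _))
    calc _ ≤ δ * (L * L + L * L) := mul_le_mul h0 h2 (abs_nonneg _) hδ0.le
      _ = 2 * δ * L ^ 2 := by ring
  -- divergence theorem
  have hab : (fun _ => -(1/2) : W) ≤ (fun _ => 1/2) := fun _ => by norm_num
  have hdet : ∀ ξ, (fderiv ℝ φ ξ).det = ∑ i, fderiv ℝ (V i) ξ (Pi.single i 1) := fun ξ =>
    det_eq φ hφ ξ
  have hcont : Continuous fun ξ => (fderiv ℝ φ ξ).det := by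
    have h1 : (fun ξ => (fderiv ℝ φ ξ).det) = fun ξ => ∑ i, dd i (V i) ξ := by
      funext ξ
      exact hdet ξ
    rw [h1]
    exact continuous_finsetSum _ fun i _ => (dd_smooth i _ (hVs i)).continuous
  have hint : IntegrableOn (fun ξ => (fderiv ℝ φ ξ).det) Bx :=
    hcont.continuousOn.integrableOn_compact isCompact_Icc
  have hdiv := integral_divergence_of_hasFDerivAt_off_countable' (n := 2) (E := ℝ)
    (fun _ => -(1/2)) (fun _ => 1/2) hab V (fun i ξ => fderiv ℝ (V i) ξ) ∅ countable_empty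
    (fun i => (hVs i).continuous.continuousOn)
    (fun ξ _ i => ((hVs i).differentiable (by simp) ξ).hasFDerivAt)
    (by
      have h1 : (fun ξ => ∑ i, fderiv ℝ (V i) ξ (Pi.single i 1))
          = fun ξ => (fderiv ℝ φ ξ).det := by
        funext ξ
        exact (hdet ξ).symm
      rw [h1]
      exact hint)
  have hvol3 : volume Bx = 1 := by
    rw [Real.volume_Icc_pi]
    simp
    norm_num
  have hvolf : ∀ i : Fin 3, volume (Icc ((fun _ => -(1/2) : W) ∘ i.succAbove)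
      ((fun _ => 1/2 : W) ∘ i.succAbove)) = 1 := by
    intro i
    rw [Real.volume_Icc_pi]
    simp
    norm_num
  have hface : ∀ (i : Fin 3) (t : ℝ), t ∈ Icc (-(1/2) : ℝ) (1/2) →
      |∫ x in Icc ((fun _ => -(1/2) : W) ∘ i.succAbove) ((fun _ => 1/2 : W) ∘ i.succAbove),
        V i (i.insertNth t x)| ≤ 2 * δ * L ^ 2 := by
    intro i t ht
    rw [← Real.norm_eq_abs]
    have h1 := norm_setIntegral_le_of_norm_le_const (μ := volume)
      (s := Icc ((fun _ => -(1/2) : W) ∘ i.succAbove) ((fun _ => 1/2 : W) ∘ i.succAbove))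
      (f := fun x => V i (i.insertNth t x)) (C := 2 * δ * L ^ 2)
      (by rw [hvolf i]; exact ENNReal.one_lt_top)
      (by
        intro x hx
        rw [Real.norm_eq_abs]
        apply hVb
        exact Fin.insertNth_mem_Icc.mpr ⟨ht, hx⟩)
    refine h1.trans (le_of_eq ?_)
    rw [measureReal_def, hvolf i, ENNReal.toReal_one, mul_one]
  have hup : |∫ ξ in Bx, (fderiv ℝ φ ξ).det| ≤ 12 * δ * L ^ 2 := by
    have h1 : ∫ ξ in Bx, (fderiv ℝ φ ξ).det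
        = ∫ ξ in Bx, ∑ i, fderiv ℝ (V i) ξ (Pi.single i 1) := by
      congr 1
      funext ξ
      exact hdet ξ
    rw [h1, hdiv, Fin.sum_univ_three]
    have m1 : (1/2 : ℝ) ∈ Icc (-(1/2) : ℝ) (1/2) := ⟨by norm_num, le_refl _⟩
    have m2 : (-(1/2) : ℝ) ∈ Icc (-(1/2) : ℝ) (1/2) := ⟨le_refl _, by norm_num⟩
    have k0 := abs_le.mp (hface 0 _ m1)
    have k0' := abs_le.mp (hface 0 _ m2)
    have k1 := abs_le.mp (hface 1 _ m1)
    have k1' := abs_le.mp (hface 1 _ m2)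
    have k2 := abs_le.mp (hface 2 _ m1)
    have k2' := abs_le.mp (hface 2 _ m2)
    rw [abs_le]
    constructor <;> linarith [k0.1, k0.2, k0'.1, k0'.2, k1.1, k1.2, k1'.1, k1'.2, k2.1, k2.2,
      k2'.1, k2'.2]
  -- constant sign
  have hpre : IsPreconnected Bx := (convex_Icc _ _).isPreconnected
  have hcB : ∀ ξ ∈ Bx, c ≤ |(fderiv ℝ φ ξ).det| := fun ξ hξ => (hB ξ hξ).2
  have hlow : c ≤ |∫ ξ in Bx, (fderiv ℝ φ ξ).det| := by
    have hconst : ∫ _ in Bx, c = c := by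
      rw [setIntegral_const, measureReal_def, hvol3, ENNReal.toReal_one, one_smul]
    have hconst' : ∫ _ in Bx, (-c) = -c := by
      rw [setIntegral_const, measureReal_def, hvol3, ENNReal.toReal_one, one_smul]
    have hci : ∀ r : ℝ, IntegrableOn (fun _ : W => r) Bx := fun r =>
      continuous_const.continuousOn.integrableOn_compact isCompact_Icc
    have hsign : (∀ ξ ∈ Bx, 0 < (fderiv ℝ φ ξ).det) ∨ (∀ ξ ∈ Bx, (fderiv ℝ φ ξ).det < 0) := by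
      by_contra hn
      push Not at hn
      obtain ⟨⟨ξ1, h1, h1'⟩, ⟨ξ2, h2, h2'⟩⟩ := hn
      obtain ⟨ξ3, h3, h3'⟩ := hpre.intermediate_value h1 h2 hcont.continuousOn ⟨h1', h2'⟩
      have := hcB ξ3 h3
      have h4 : (fderiv ℝ φ ξ3).det = 0 := h3'
      rw [h4, abs_zero] at this
      linarith
    rcases hsign with h | h
    · have h1 : ∫ _ in Bx, c ≤ ∫ ξ in Bx, (fderiv ℝ φ ξ).det := by
        apply setIntegral_mono_on (hci c) hint measurableSet_Icc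
        intro ξ hξ
        have := hcB ξ hξ
        rwa [abs_of_pos (h ξ hξ)] at this
      rw [hconst] at h1
      exact h1.trans (le_abs_self _)
    · have h1 : ∫ ξ in Bx, (fderiv ℝ φ ξ).det ≤ ∫ _ in Bx, (-c) := by
        apply setIntegral_mono_on hint (hci (-c)) measurableSet_Icc
        intro ξ hξ
        have := hcB ξ hξ
        rw [abs_of_neg (h ξ hξ)] at this
        linarith
      rw [hconst'] at h1
      have := neg_le_abs (∫ ξ in Bx, (fderiv ℝ φ ξ).det)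
      linarith
  have hfin : 12 * δ * L ^ 2 < c := by
    have e : 13 * (δ * L ^ 2) = c := by
      rw [hδ]
      field_simp
    have : 0 < δ * L ^ 2 := by positivity
    linarith
  linarith

end Pool.Agent.Helper49.RF
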