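import Pool.Agent.Helper64.RF.GoalsD

/-!
MP_c98eff_gt, packet D5-TAY: second differences of the energy density, uniformly.
-/

open Quaternion

namespace Pool.Agent.Helper49.RF

open Pool.Agent.Helper64.RF

/-- the parameter space -/
abbrev PP : Type := ℍ[ℝ] × W × W × W × ℝ

theorem bb_ne {G : ℍ[ℝ] → W →L[ℝ] W →L[ℝ] W} (x : ℍ[ℝ]) (V : W) (u : ℝ) : bb G x V u ≠ 0 := by
  intro h
  have h1 : (bb G x V u).re = 1 := by simp [bb]
  rw [h] at h1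
  simp at h1

theorem inv_smooth (q : ℍ[ℝ]) (hq : q ≠ 0) :
    ContDiffAt ℝ (⊤ : ℕ∞) (fun y : ℍ[ℝ] => y⁻¹) q := by
  have h := contDiffAt_ringInverse (n := ((⊤ : ℕ∞) : WithTop ℕ∞)) ℝ (Units.mk0 q hq)
  have e : (Ring.inverse : ℍ[ℝ] → ℍ[ℝ]) = fun y => y⁻¹ := Ring.inverse_eq_inv'
  rw [e] at h
  exact h

theorem Ed_joint {F P : Type*} [NormedAddCommGroup F] [NormedSpace ℝ F] [NormedAddCommGroup P]
    [NormedSpace ℝ P] {f : ℍ[ℝ] → F} (h : SS f) (x : P → ℍ[ℝ]) (v : P → W) (p : P)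
    (hp : x p ≠ 0) (hx : ContDiffAt ℝ (⊤ : ℕ∞) x p) (hv : ContDiffAt ℝ (⊤ : ℕ∞) v p) :
    ContDiffAt ℝ (⊤ : ℕ∞) (fun p => Ed (v p) f (x p)) p := by
  have h1 : ContDiffAt ℝ (⊤ : ℕ∞) (fderiv ℝ f) (x p) := (h.2 (x p) hp).fderiv_right (by simp)
  have h2 : ContDiffAt ℝ (⊤ : ℕ∞) (fun p => fderiv ℝ f (x p)) p := h1.comp p hx
  have h3 : ContDiffAt ℝ (⊤ : ℕ∞) (fun p => iot (v p)) p :=
    (iotL.contDiff.contDiffAt).comp p hv
  exact h2.clm_apply (hx.mul h3)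

/-- the energy density as a function of all the variables -/
noncomputable def Ph (g : ℍ[ℝ] → W →L[ℝ] W →L[ℝ] ℝ) (G : ℍ[ℝ] → W →L[ℝ] W →L[ℝ] W)
    (p : PP) : ℝ := ph g G p.1 p.2.1 p.2.2.1 p.2.2.2.1 p.2.2.2.2

theorem Ph_smooth {g : ℍ[ℝ] → W →L[ℝ] W →L[ℝ] ℝ} {G : ℍ[ℝ] → W →L[ℝ] W →L[ℝ] W}
    (hg : SS g) (hG : SS G) (p : PP) (hp : p.1 ≠ 0) :
    ContDiffAt ℝ (⊤ : ℕ∞) (Ph g G) p := by
  have hx : ContDiffAt ℝ (⊤ : ℕ∞) (fun p : PP => p.1) p := by fun_prop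
  have hV : ContDiffAt ℝ (⊤ : ℕ∞) (fun p : PP => p.2.1) p := by fun_prop
  have hv : ContDiffAt ℝ (⊤ : ℕ∞) (fun p : PP => p.2.2.1) p := by fun_prop
  have hw : ContDiffAt ℝ (⊤ : ℕ∞) (fun p : PP => p.2.2.2.1) p := by fun_prop
  have hu : ContDiffAt ℝ (⊤ : ℕ∞) (fun p : PP => p.2.2.2.2) p := by fun_prop
  have hio : ∀ f : PP → W, ContDiffAt ℝ (⊤ : ℕ∞) f p →
      ContDiffAt ℝ (⊤ : ℕ∞) (fun p => iot (f p)) p := fun f hf =>
    (iotL.contDiff.contDiffAt).comp p hf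
  have hGx : ContDiffAt ℝ (⊤ : ℕ∞) (fun p : PP => G p.1) p := (hG.2 p.1 hp).comp p hx
  have hu2 : ContDiffAt ℝ (⊤ : ℕ∞) (fun p : PP => p.2.2.2.2 ^ 2 / 2) p :=
    (hu.pow 2).div_const 2
  have hbb : ContDiffAt ℝ (⊤ : ℕ∞) (fun p : PP => bb G p.1 p.2.1 p.2.2.2.2) p :=
    ((contDiffAt_const (c := (1 : ℍ[ℝ]))).add (hu.smul (hio _ hV))).sub
      (hu2.smul (hio _ ((hGx.clm_apply hV).clm_apply hV)))
  have hbi : ContDiffAt ℝ (⊤ : ℕ∞) (fun p : PP => (bb G p.1 p.2.1 p.2.2.2.2)⁻¹) p :=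
    (inv_smooth _ (bb_ne p.1 p.2.1 p.2.2.2.2)).comp p hbb
  have hEd : ContDiffAt ℝ (⊤ : ℕ∞) (fun p : PP => Ed p.2.2.1 G p.1) p :=
    Ed_joint hG (fun p : PP => p.1) (fun p : PP => p.2.2.1) p hp hx hv
  have hin : ContDiffAt ℝ (⊤ : ℕ∞) (fun p : PP => Ed p.2.2.1 G p.1 p.2.1 p.2.1
      + G p.1 p.2.2.2.1 p.2.1 + G p.1 p.2.1 p.2.2.2.1) p :=
    (((hEd.clm_apply hV).clm_apply hV).add ((hGx.clm_apply hw).clm_apply hV)).add
      ((hGx.clm_apply hV).clm_apply hw)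
  have hnu : ContDiffAt ℝ (⊤ : ℕ∞)
      (fun p : PP => nuu G p.1 p.2.1 p.2.2.1 p.2.2.2.1 p.2.2.2.2) p := by
    refine (imL.contDiff.contDiffAt).comp p ?_
    exact ((hbi.mul (hio _ hv)).mul hbb).add
      (hbi.mul ((hu.smul (hio _ hw)).sub (hu2.smul (hio _ hin))))
  have hgx : ContDiffAt ℝ (⊤ : ℕ∞) (fun p : PP => g (p.1 * bb G p.1 p.2.1 p.2.2.2.2)) p :=
    (hg.2 _ (mul_ne_zero hp (bb_ne p.1 p.2.1 p.2.2.2.2))).comp p (hx.mul hbb)
  exact (hgx.clm_apply hnu).clm_apply hnu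

/-- the derivative in the last variable -/
noncomputable def Du (f : PP → ℝ) (p : PP) : ℝ := fderiv ℝ f p (0, 0, 0, 0, 1)

theorem Du_smooth (f : PP → ℝ) (hf : ∀ p : PP, p.1 ≠ 0 → ContDiffAt ℝ (⊤ : ℕ∞) f p) (p : PP)
    (hp : p.1 ≠ 0) : ContDiffAt ℝ (⊤ : ℕ∞) (Du f) p :=
  ((hf p hp).fderiv_right (m := ((⊤ : ℕ∞) : WithTop ℕ∞)) (by simp)).clm_apply contDiffAt_const

theorem Du_deriv (f : PP → ℝ) (hf : ∀ p : PP, p.1 ≠ 0 → ContDiffAt ℝ (⊤ : ℕ∞) f p)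
    (x : ℍ[ℝ]) (hx : x ≠ 0) (V v w : W) (u : ℝ) :
    HasDerivAt (fun s : ℝ => f (x, V, v, w, s)) (Du f (x, V, v, w, u)) u := by
  have h1 : HasFDerivAt f (fderiv ℝ f (x, V, v, w, u)) (x, V, v, w, u) :=
    ((hf (x, V, v, w, u) hx).differentiableAt (by simp)).hasFDerivAt
  have h2 : HasDerivAt (fun s : ℝ => ((x, V, v, w, s) : PP)) (0, 0, 0, 0, 1) u :=
    (hasDerivAt_const u x).prodMk ((hasDerivAt_const u V).prodMk
      ((hasDerivAt_const u v).prodMk ((hasDerivAt_const u w).prodMk (hasDerivAt_id u))))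
  exact h1.comp_hasDerivAt u h2

/-- mean value inequality -/
theorem mvt (f f' : ℝ → ℝ) (M t : ℝ) (ht : 0 ≤ t) (h0 : f 0 = 0)
    (hf : ∀ s, HasDerivAt f (f' s) s) (hM : ∀ s, 0 ≤ s → s ≤ t → |f' s| ≤ M) :
    |f t| ≤ M * t := by
  have h := norm_image_sub_le_of_norm_deriv_le_segment' (f := f) (f' := f') (C := M)
    (a := 0) (b := t) (fun s _ => (hf s).hasDerivWithinAt)
    (fun s hs => by rw [Real.norm_eq_abs]; exact hM s hs.1 hs.2.le) t ⟨ht, le_refl t⟩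
  rw [h0, sub_zero, sub_zero, Real.norm_eq_abs] at h
  exact h

/-- Taylor estimate for the second difference -/
theorem taylor (f f1 f2 f3 : ℝ → ℝ) (K : ℝ) (h1 : ∀ s, HasDerivAt f (f1 s) s)
    (h2 : ∀ s, HasDerivAt f1 (f2 s) s) (h3 : ∀ s, HasDerivAt f2 (f3 s) s)
    (hK : ∀ s, |s| ≤ 1 → |f3 s| ≤ K) (t : ℝ) (ht0 : 0 ≤ t) (ht1 : t ≤ 1) :
    |f t + f (-t) - 2 * f 0 - t ^ 2 * f2 0| ≤ 2 * K * t ^ 3 := by
  have hneg : ∀ (h h' : ℝ → ℝ), (∀ s, HasDerivAt h (h' s) s) →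
      ∀ s, HasDerivAt (fun s => h (-s)) (-(h' (-s))) s := by
    intro h h' hh s
    have := (hh (-s)).comp s (hasDerivAt_neg s)
    rw [mul_neg_one] at this
    exact this
  have hK0 : 0 ≤ K := (abs_nonneg _).trans (hK 0 (by simp))
  have b2 : ∀ s, 0 ≤ s → s ≤ 1 → |f2 s + f2 (-s) - 2 * f2 0| ≤ 2 * K * s := by
    intro s hs0 hs1
    refine mvt (fun s => f2 s + f2 (-s) - 2 * f2 0) (fun s => f3 s + -(f3 (-s)) - 0) (2 * K) s hs0
      (by simp; ring) (fun s => ((h3 s).add (hneg f2 f3 h3 s)).sub (hasDerivAt_const s _)) ?_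
    intro r hr0 hr1
    have a1 := hK r (by rw [abs_of_nonneg hr0]; linarith)
    have a2 := hK (-r) (by rw [abs_neg, abs_of_nonneg hr0]; linarith)
    rw [sub_zero]
    calc |f3 r + -(f3 (-r))| ≤ |f3 r| + |-(f3 (-r))| := abs_add_le _ _
      _ ≤ 2 * K := by rw [abs_neg]; linarith
  have b1 : ∀ s, 0 ≤ s → s ≤ 1 → |f1 s - f1 (-s) - 2 * s * f2 0| ≤ 2 * K * s ^ 2 := by
    intro s hs0 hs1
    have := mvt (fun s => f1 s - f1 (-s) - 2 * s * f2 0)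
      (fun s => f2 s - -(f2 (-s)) - 2 * 1 * f2 0) (2 * K * s) s hs0 (by simp)
      (fun s => ((h2 s).sub (hneg f1 f2 h2 s)).sub
        (((hasDerivAt_id s).const_mul 2).mul_const _)) ?_
    · calc _ ≤ 2 * K * s * s := this
        _ = _ := by ring
    · intro r hr0 hr1
      have a1 := b2 r hr0 (hr1.trans hs1)
      have e : f2 r - -(f2 (-r)) - 2 * 1 * f2 0 = f2 r + f2 (-r) - 2 * f2 0 := by ring
      rw [e]
      refine a1.trans ?_
      exact mul_le_mul_of_nonneg_left hr1 (by linarith)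
  have := mvt (fun s => f s + f (-s) - 2 * f 0 - s ^ 2 * f2 0)
    (fun s => f1 s + -(f1 (-s)) - 0 - (2 * s ^ (2 - 1) * 1) * f2 0) (2 * K * t ^ 2) t ht0
    (by simp; ring)
    (fun s => (((h1 s).add (hneg f f1 h1 s)).sub (hasDerivAt_const s _)).sub
      (((hasDerivAt_id s).pow 2).mul_const _)) ?_
  · calc _ ≤ 2 * K * t ^ 2 * t := this
      _ = _ := by ring
  · intro r hr0 hr1
    have a1 := b1 r hr0 (hr1.trans ht1)
    have e : f1 r + -(f1 (-r)) - 0 - (2 * r ^ (2 - 1) * 1) * f2 0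
        = f1 r - f1 (-r) - 2 * r * f2 0 := by
      norm_num
      ring
    rw [e]
    refine a1.trans ?_
    exact mul_le_mul_of_nonneg_left (pow_le_pow_left₀ hr0 hr1 2) (by linarith)

theorem nuu_smul (G : ℍ[ℝ] → W →L[ℝ] W →L[ℝ] W) (x : ℍ[ℝ]) (V v w : W) (r u : ℝ) :
    nuu G x V (r • v) (r • w) u = r • nuu G x V v w u := by
  unfold nuu
  rw [← im_smul]
  congr 1
  simp only [iot_smul, Ed_smul, _root_.smul_apply, map_smul, smul_add, iot_add,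
    mul_smul_comm, smul_mul_assoc, mul_sub, mul_add, smul_sub]
  congr 1
  congr 1
  · rw [smul_comm]
  · rw [smul_comm r (u ^ 2 / 2), smul_comm r (u ^ 2 / 2), smul_comm r (u ^ 2 / 2)]

theorem ph_smul (g : ℍ[ℝ] → W →L[ℝ] W →L[ℝ] ℝ) (G : ℍ[ℝ] → W →L[ℝ] W →L[ℝ] W) (x : ℍ[ℝ])
    (V v w : W) (r u : ℝ) : ph g G x V (r • v) (r • w) u = r ^ 2 * ph g G x V v w u := by
  unfold ph
  rw [nuu_smul, map_smul, map_smul, _root_.smul_apply, smul_eq_mul, smul_eq_mul]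
  ring

theorem ph_hom {g : ℍ[ℝ] → W →L[ℝ] W →L[ℝ] ℝ} {G : ℍ[ℝ] → W →L[ℝ] W →L[ℝ] W}
    (hg : SS g) (hG : SS G) (x : ℍ[ℝ]) (V v w : W) (r u : ℝ) (hr : 0 < r) :
    ph g G (r • x) V v w u = ph g G x V v w u := by
  have h1 : bb G (r • x) V u = bb G x V u := by
    unfold bb
    rw [hG.1 r hr x]
  have h2 : nuu G (r • x) V v w u = nuu G x V v w u := by
    unfold nuu
    rw [h1, hG.1 r hr x, (hG.ed v).1 r hr x]
  unfold ph
  rw [h1, h2, smul_mul_assoc, hg.1 r hr]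

/-- the second difference -/
noncomputable def TT (g : ℍ[ℝ] → W →L[ℝ] W →L[ℝ] ℝ) (G : ℍ[ℝ] → W →L[ℝ] W →L[ℝ] W)
    (x : ℍ[ℝ]) (V v w : W) (u : ℝ) : ℝ :=
  ph g G x V v w u + ph g G x V v w (-u) - 2 * ph g G x V v w 0
        - u ^ 2 * deriv (deriv (ph g G x V v w)) 0

theorem TT_smul (g : ℍ[ℝ] → W →L[ℝ] W →L[ℝ] ℝ) (G : ℍ[ℝ] → W →L[ℝ] W →L[ℝ] W) (x : ℍ[ℝ])
    (V v w : W) (r u : ℝ) : TT g G x V (r • v) (r • w) u = r ^ 2 * TT g G x V v w u := by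
  have e1 : ph g G x V (r • v) (r • w) = fun s => r ^ 2 * ph g G x V v w s :=
    funext fun s => ph_smul g G x V v w r s
  have e2 : deriv (ph g G x V (r • v) (r • w)) = fun s => r ^ 2 * deriv (ph g G x V v w) s := by
    rw [e1]
    funext s
    exact deriv_const_mul_field _
  have e3 : deriv (deriv (ph g G x V (r • v) (r • w))) 0
      = r ^ 2 * deriv (deriv (ph g G x V v w)) 0 := by
    rw [e2]
    exact deriv_const_mul_field _
  unfold TT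
  rw [e3, ph_smul, ph_smul, ph_smul]
  ring

theorem TT_hom {g : ℍ[ℝ] → W →L[ℝ] W →L[ℝ] ℝ} {G : ℍ[ℝ] → W →L[ℝ] W →L[ℝ] W}
    (hg : SS g) (hG : SS G) (x : ℍ[ℝ]) (V v w : W) (r u : ℝ) (hr : 0 < r) :
    TT g G (r • x) V v w u = TT g G x V v w u := by
  have e1 : ph g G (r • x) V v w = ph g G x V v w :=
    funext fun s => ph_hom hg hG x V v w r s hr
  unfold TT
  rw [e1]

theorem TT_abs (g : ℍ[ℝ] → W →L[ℝ] W →L[ℝ] ℝ) (G : ℍ[ℝ] → W →L[ℝ] W →L[ℝ] W) (x : ℍ[ℝ])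
    (V v w : W) (u : ℝ) : TT g G x V v w |u| = TT g G x V v w u := by
  rcases le_or_gt 0 u with h | h
  · rw [abs_of_nonneg h]
  · rw [abs_of_neg h]
    unfold TT
    rw [neg_neg, neg_sq]
    ring

theorem tay : TAY := by
  intro g G hg hG B
  have hP := Ph_smooth hg.smooth hG.smooth
  have hP1 := Du_smooth _ hP
  have hP2 := Du_smooth _ hP1
  have hP3 := Du_smooth _ hP2
  set S : Set PP := Metric.sphere (0 : ℍ[ℝ]) 1 ×ˢ Metric.closedBall (0 : W) B ×ˢ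
    Metric.closedBall (0 : W) 1 ×ˢ Metric.closedBall (0 : W) 1 ×ˢ Set.Icc (-1 : ℝ) 1 with hS
  have hSc : IsCompact S :=
    (isCompact_sphere 0 1).prod ((isCompact_closedBall 0 B).prod ((isCompact_closedBall 0 1).prod
      ((isCompact_closedBall 0 1).prod isCompact_Icc)))
  have hcont : ContinuousOn (Du (Du (Du (Ph g G)))) S := by
    intro p hp
    have hp1 : p.1 ≠ 0 := by
      have : ‖p.1‖ = 1 := by simpa using hp.1
      intro h0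
      rw [h0] at this
      simp at this
    exact (hP3 p hp1).continuousAt.continuousWithinAt
  obtain ⟨C, hC⟩ := hSc.exists_bound_of_continuousOn hcont
  refine ⟨2 * max C 0, by positivity, ?_⟩
  have key : ∀ (x : ℍ[ℝ]) (V v w : W) (u : ℝ), ‖x‖ = 1 → ‖V‖ ≤ B → ‖v‖ ≤ 1 → ‖w‖ ≤ 1 → |u| ≤ 1 →
      |TT g G x V v w u| ≤ 2 * max C 0 * |u| ^ 3 := by
    intro x V v w u hx hV hv hw hu
    have hx0 : x ≠ 0 := by
      intro h0
      rw [h0] at hx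
      simp at hx
    have d1 := Du_deriv _ hP x hx0 V v w
    have d2 := Du_deriv _ hP1 x hx0 V v w
    have d3 := Du_deriv _ hP2 x hx0 V v w
    have e1 : deriv (ph g G x V v w) = fun s => Du (Ph g G) (x, V, v, w, s) :=
      funext fun s => (d1 s).deriv
    have e2 : deriv (deriv (ph g G x V v w)) 0 = Du (Du (Ph g G)) (x, V, v, w, 0) := by
      rw [e1]
      exact (d2 0).deriv
    have h := taylor (ph g G x V v w) (fun s => Du (Ph g G) (x, V, v, w, s))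
      (fun s => Du (Du (Ph g G)) (x, V, v, w, s)) (fun s => Du (Du (Du (Ph g G))) (x, V, v, w, s))
      (max C 0) d1 d2 d3 ?_ |u| (abs_nonneg u) hu
    · rw [← TT_abs]
      unfold TT
      rw [e2]
      exact h
    · intro s hs
      refine le_trans ?_ (le_max_left _ _)
      rw [← Real.norm_eq_abs]
      apply hC
      rw [hS]
      refine ⟨?_, ?_, ?_, ?_, ?_⟩
      · simpa using hx
      · simpa using hV
      · simpa using hv
      · simpa using hw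
      · exact abs_le.mp hs
  intro x V v w u hx hV hu
  show |TT g G x V v w u| ≤ _
  have hn : 0 < ‖x‖⁻¹ := inv_pos.mpr (norm_pos_iff.mpr hx)
  rw [← TT_hom hg.smooth hG.smooth x V v w _ u hn]
  have hx1 : ‖(‖x‖⁻¹ • x)‖ = 1 := by
    rw [norm_smul, norm_inv, norm_norm, inv_mul_cancel₀ (norm_ne_zero_iff.mpr hx)]
  set y := ‖x‖⁻¹ • x with hy
  set r := max ‖v‖ ‖w‖ with hr
  have hr0 : 0 ≤ r := (norm_nonneg v).trans (le_max_left _ _)
  have hr2 : r ^ 2 ≤ ‖v‖ ^ 2 + ‖w‖ ^ 2 := by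
    rcases le_total ‖v‖ ‖w‖ with h | h
    · rw [hr, max_eq_right h]
      have := sq_nonneg ‖v‖
      linarith
    · rw [hr, max_eq_left h]
      have := sq_nonneg ‖w‖
      linarith
  have hu3 : 0 ≤ |u| ^ 3 := by positivity
  have hM : 0 ≤ 2 * max C 0 * |u| ^ 3 := by positivity
  rcases hr0.eq_or_lt with h | h
  · have hv0 : v = 0 := by
      rw [← norm_le_zero_iff, h]
      exact le_max_left _ _
    have hw0 : w = 0 := by
      rw [← norm_le_zero_iff, h]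
      exact le_max_right _ _
    have := TT_smul g G y V v w 0 u
    rw [zero_smul, zero_smul] at this
    rw [hv0, hw0, this]
    simp only [ne_eq, OfNat.ofNat_ne_zero, not_false_eq_true, zero_pow, zero_mul, abs_zero,
      norm_zero, add_zero, mul_zero, le_refl]
  · have e1 : v = r • (r⁻¹ • v) := by rw [smul_smul, mul_inv_cancel₀ h.ne', one_smul]
    have e2 : w = r • (r⁻¹ • w) := by rw [smul_smul, mul_inv_cancel₀ h.ne', one_smul]
    have hv1 : ‖r⁻¹ • v‖ ≤ 1 := by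
      rw [norm_smul, norm_inv, Real.norm_eq_abs, abs_of_pos h, inv_mul_le_iff₀ h, mul_one]
      exact le_max_left _ _
    have hw1 : ‖r⁻¹ • w‖ ≤ 1 := by
      rw [norm_smul, norm_inv, Real.norm_eq_abs, abs_of_pos h, inv_mul_le_iff₀ h, mul_one]
      exact le_max_right _ _
    have hk := key y V (r⁻¹ • v) (r⁻¹ • w) u hx1 hV hv1 hw1 hu
    have hT := TT_smul g G y V (r⁻¹ • v) (r⁻¹ • w) r u
    rw [← e1, ← e2] at hT
    rw [hT, abs_mul, abs_of_nonneg (sq_nonneg r)]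
    calc r ^ 2 * |TT g G y V (r⁻¹ • v) (r⁻¹ • w) u|
        ≤ (‖v‖ ^ 2 + ‖w‖ ^ 2) * (2 * max C 0 * |u| ^ 3) :=
          mul_le_mul hr2 hk (abs_nonneg _) (by positivity)
      _ = 2 * max C 0 * |u| ^ 3 * (‖v‖ ^ 2 + ‖w‖ ^ 2) := by ring

end Pool.Agent.Helper49.RF
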